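import Pool.Agent.Helper57.NX3.Defs
import Pool.Agent.Helper9.NX.Frac

/-! Fractional parts of `(K k)^c` (NX2-C14). -/

set_option autoImplicit false

open Finset
open scoped BigOperators

namespace Pool.Agent.Helper57.NX3

open Pool.Agent.Helper57.NX in
theorem frac_mult (hES : ES0) (c : ℝ) (hc : 0 < c) (hcn : ∀ n : ℕ, c ≠ n) (K : ℕ) (hK : 1 ≤ K) :
    ∃ C : ℝ, 0 < C ∧ ∃ σ : ℝ, 0 < σ ∧ ∃ D0 : ℝ, ∀ D : ℕ, D0 ≤ D → ∀ η : ℝ, 0 < η → η ≤ 1 →
    (#((Ico D (D + D)).filter fun k : ℕ => 1 - η ≤ Int.fract (((K * k : ℕ) : ℝ) ^ c)) : ℝ) ≤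
      C * (η + (D : ℝ) ^ (-σ)) * D := by
  obtain ⟨C, hC, σ, hσ, D0, hD0⟩ := frac_count hES c hc hcn
  have hK0 : (0 : ℝ) < K := by exact_mod_cast hK
  have hK1 : (1 : ℝ) ≤ K := by exact_mod_cast hK
  refine ⟨C * K, by positivity, σ, hσ, max D0 1, ?_⟩
  intro D hD η hη0 hη1
  have hD1 : (1 : ℝ) ≤ D := le_trans (le_max_right _ _) hD
  have hDD0 : D0 ≤ D := le_trans (le_max_left _ _) hD
  have hDpos : (0 : ℝ) < D := by linarith
  have hKD : (D : ℝ) ≤ K * D := le_mul_of_one_le_left hDpos.le hK1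
  have h1 := hD0 (K * D) (hDD0.trans hKD) η hη0 hη1 (K * D) (K * D)
    (by push_cast; exact le_rfl) (by push_cast; linarith) (by push_cast; nlinarith)
  have hcard : #((Ico D (D + D)).filter fun k : ℕ => 1 - η ≤ Int.fract (((K * k : ℕ) : ℝ) ^ c)) ≤
      #((Ico (K * D) (K * D + K * D)).filter fun k : ℕ => 1 - η ≤ Int.fract ((k : ℝ) ^ c)) := by
    apply Finset.card_le_card_of_injOn (fun k => K * k)
    · intro k hk
      rw [Finset.mem_coe, Finset.mem_filter, Finset.mem_Ico] at hk ⊢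
      obtain ⟨⟨hk1, hk2⟩, hk3⟩ := hk
      refine ⟨⟨Nat.mul_le_mul_left K hk1, ?_⟩, hk3⟩
      rw [← mul_add]
      exact Nat.mul_lt_mul_of_pos_left hk2 (by omega)
    · intro a _ b _ hab
      exact Nat.eq_of_mul_eq_mul_left (by omega) hab
  have hcard' : (#((Ico D (D + D)).filter fun k : ℕ =>
      1 - η ≤ Int.fract (((K * k : ℕ) : ℝ) ^ c)) : ℝ) ≤
      (#((Ico (K * D) (K * D + K * D)).filter fun k : ℕ =>
        1 - η ≤ Int.fract ((k : ℝ) ^ c)) : ℝ) := by exact_mod_cast hcard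
  have hpow : ((K : ℝ) * D) ^ (-σ) ≤ (D : ℝ) ^ (-σ) :=
    Real.rpow_le_rpow_of_nonpos hDpos hKD (by linarith)
  calc _ ≤ _ := hcard'
    _ ≤ C * (η + ((K : ℝ) * D) ^ (-σ)) * ((K * D : ℕ) : ℝ) := h1
    _ ≤ C * (η + (D : ℝ) ^ (-σ)) * ((K * D : ℕ) : ℝ) := by
        apply mul_le_mul_of_nonneg_right _ (by positivity)
        exact mul_le_mul_of_nonneg_left (by linarith) hC.le
    _ = C * K * (η + (D : ℝ) ^ (-σ)) * D := by push_cast; ring

end Pool.Agent.Helper57.NX3
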